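import Pool.Agent.helper74.NL.Spec
import Pool.Agent.helper27.MP.TB

/-! # nl:T1. Push-forward of a simple pole -/

set_option autoImplicit false

open Complex Metric Set Filter Topology MeasureTheory MPS Pool.Agent.helper98.ILF

noncomputable section

namespace NLF

theorem T1 : T1_stmt := by
  intro n y a hn hy ha hya
  have hn0 : (n : ℂ) ≠ 0 := Nat.cast_ne_zero.mpr (by omega)
  have hyn : y ^ n ≠ 0 := pow_ne_zero _ hy
  have hsub : y ^ n - a ^ n ≠ 0 := sub_ne_zero.mpr hya
  have h1 := TB_S1 n hn y a hy hya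
  have h2 : ∑ j ∈ Finset.range n, (1 / (om n ^ j * y - a)) / fd n (om n ^ j * y) ^ 2 =
      ∑ j ∈ Finset.range n, (1 / (om n ^ j * y - a)) * (1 / fd n (om n ^ j * y) ^ 2) := by
    refine Finset.sum_congr rfl fun j _ => ?_
    rw [div_eq_mul_one_div]
  rw [h2, h1]
  have han : a ^ (n - 1) ≠ 0 := pow_ne_zero _ ha
  have e3 : a ^ n = a ^ (n - 1) * a := by rw [← pow_succ, show n - 1 + 1 = n by omega]
  unfold fd
  rw [e3] at hsub ⊢
  generalize a ^ (n - 1) = A at *
  generalize y ^ n = Y at *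
  have h3 : 1 / (Y - A * a) - 1 / Y = A * a / ((Y - A * a) * Y) := by
    rw [div_sub_div _ _ hsub hyn]
    congr 1
    ring
  rw [h3]
  generalize Y - A * a = D at *
  field_simp

end NLF
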